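import Mathlib
import Pool.Agent.V1199.ScdPi

open Set Filter Topology

namespace Pool.Agent.Results.MP_349854_an.ScdNoPiBase

open Pool.Agent.V1199.ScdPi

/-- There are a real Banach space `X` and a non-empty closed convex bounded slicely countably
determined set `U ⊆ X` which has no countable `π`-basis for its relative weak topology. -/
theorem result : ∃ (X : Type) (_ : NormedAddCommGroup X) (_ : NormedSpace ℝ X) (U : Set X),
    CompleteSpace X ∧ U.Nonempty ∧ IsClosed U ∧ Convex ℝ U ∧ Bornology.IsBounded U ∧ SCD U ∧
      ¬ HasCountablePiBase U :=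
  ⟨XX, inferInstance, inferInstance, UU, inferInstance, ⟨_, uu_mem 0⟩, UU_closed, UU_convex,
    Metric.isBounded_closedBall.subset (fun y hy => by
      rw [mem_closedBall_zero_iff]; exact UU_norm hy), UU_scd, UU_no_pibase⟩

end Pool.Agent.Results.MP_349854_an.ScdNoPiBase
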